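import Pool.Agent.T6.H92.LC.FastCert

/-! # Certificates (generated) -/

namespace Pool.Agent.T6.H92.LC.S1T00

universe u


theorem g0 : Good.{u} (mk 1 3 5 0x208140090800004040) :=
  leafC_good 1 1 2 0x102041043100001 (by decide +kernel)

theorem gbase : Good.{u} (mk 1 1 2 0x4000000) :=
  baseC_good
   ((gc g0 (gn 1)))
   [0x103042002040000]
   (by decide +kernel)

end Pool.Agent.T6.H92.LC.S1T00
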