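import Pool.Agent.T6.H92.LC.FastCert

/-! # Certificates (generated) -/

namespace Pool.Agent.T6.H92.LC.S2T00

universe u


theorem g0 : Good.{u} (mk 2 4 7 0x20c2400d0c141000020204040) :=
  leafC_good 1 1 2 0xc5181041086100001 (by decide +kernel)

theorem gbase : Good.{u} (mk 2 2 4 0x40050400004040) :=
  baseC_good
   ((gc g0 (gn 2)))
   [0x60850c01010c2040000,
    0x61430801010c2040000,
    0x60850c40400c2040000,
    0x61430840400c2040000]
   (by decide +kernel)

end Pool.Agent.T6.H92.LC.S2T00
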