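import Pool.Agent.T6.H92.LC.FastCert

/-! # Certificates (generated) -/

namespace Pool.Agent.T6.H92.LC.S3T00

universe u


theorem g0 : Good.{u} (mk 3 5 9 0x210340111024205040000c0c20204040) :=
  leafC_good 1 1 2 0x107202041043206140001 (by decide +kernel)

theorem g1 : Good.{u} (mk 3 5 9 0x210340090844405040000c0c20204040) :=
  leafC_good 1 1 2 0x103206041047088140001 (by decide +kernel)

theorem gbase : Good.{u} (mk 3 3 6 0x400908141000020204040) :=
  baseC_good
   ((gc g0 (gc g1 (gn 3))))
   [0x2031c41401810840c1080000,
    0x2031071401810840c1080001,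
    0x2031c51060020440c0081001,
    0x2041c31460400840c1002001,
    0x2041c50c11820040c2001000,
    0x2041470c11820040c2001001,
    0x2050c71021800440c0042001,
    0x2051c40c60810040c2040001,
    0x2071440c60810040c2040000]
   (by decide +kernel)

end Pool.Agent.T6.H92.LC.S3T00
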