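import Pool.Agent.T6.H92.LC.FastCert

/-! # Certificates (generated) -/

namespace Pool.Agent.T6.H92.LC.S4T00

universe u


theorem g0 : Good.{u} (mk 4 6 11 0x2144401514343090814100004040c0c20204040) :=
  leafC_good 1 1 2 0x14928308104110a207180001 (by decide +kernel)

theorem g1 : Good.{u} (mk 4 6 11 0x2144400d0c545090814100004040c0c20204040) :=
  leafC_good 1 1 2 0x144288081041243287180001 (by decide +kernel)

theorem g2 : Good.{u} (mk 4 6 11 0x2144401514343111024205040000c0c20204040) :=
  leafC_good 1 1 2 0x1092870810410c8286140001 (by decide +kernel)

theorem g3 : Good.{u} (mk 4 7 13 0x21858511006460d0c242151414100004040c0c20204040) :=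
  leafC_good 2 1 3 0x14a30b0c20410440c21c60000442cc248040001 (by decide +kernel)

theorem g4 : Good.{u} (mk 4 8 14 0x871a144401d1c3430908646151414100004040c0c20204040) :=
  leafC_good 2 1 3 0x52cd1cc0c20410440c220718000110c1cd289040001 (by decide +kernel)

theorem g5 : Good.{u} (mk 4 6 11 0x2144400d0c242151414100004040c0c20204040) :=
  innerC_good
   ((gc g0 (gc g1 (gc g2 (gc g3 (gc g4 (gn 4)))))))
   1 0 1 0x103087180001
   [0xa30b0040c20452481c6184003081042,
    0xa30518720900b0420c41460420c0001,
    0x28d2c010c0c20452481c6187003081042,
    0x28d2c03040c20452481c6187003081042,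
    0x28d14630720900b0420c41c60420c0001,
    0x28d1461cc20900b0420c41c60420c0001,
    0x30d28b0040c20452481c6184003081042,
    0x30a04b083100187209146105083001043,
    0xa3061c824504b083100146083001000,
    0x34a04b0833040061c8245187105083001044,
    0x34a2c100c1030871852481871050400c2044,
    0x28d18c1c824504b0831001c6083001000,
    0x28d18730824504b0831001c6083001000,
    0x28c3461c824504b083100146083001000,
    0xa3040cb0810092071851060c2040042,
    0xa3081c61492c2040103146081003001,
    0x28d10c0cb0810092071851c60c2040042,
    0x28d3040cb0810092071851c60c2040042,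
    0x28d2073061492c20401031c6081003001,
    0x28d20c1c61492c20401031c6081003001,
    0x30a3440cb0810092071851060c2040042,
    0xa30914b187203100042184001083001,
    0xa3052c61c82400420c41850420c0002,
    0x28d2452c61c80cc100042187001083001,
    0x28d2452c61c80c4300042187001083001,
    0x28d14b18c1c82400420c41870420c0002,
    0x28d14b1873082400420c41870420c0002,
    0x30d28914b187203100042184001083001,
    0xa3092c81c61440c20401840c2040001,
    0xa3061c82c9141083100146083001002,
    0x28d24b20718510c0c20401870c2040001,
    0x28d24b2071853040c20401870c2040001,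
    0x28d18c1c82c91410831001c6083001002,
    0x28d1873082c91410831001c6083001002,
    0x30d2892c81c61440c20401840c2040001,
    0xa30b2481c61440c20401840c2040000,
    0x30a2c92071851030810061440c2040003,
    0x28d2c920718510c0c20401870c2040000,
    0x28d2c92071853040c20401870c2040000,
    0x34a24b146307203100042187144001083004,
    0x34a2c920c1c61440c20401871440c2040004,
    0x30d28b2481c61440c20401840c2040000]
   (by decide +kernel)

theorem gbase : Good.{u} (mk 4 4 8 0x400d0c24205040000c0c20204040) :=
  baseC_good
   ((gc g0 (gc g1 (gc g5 (gn 4)))))
   [0xa1091461c02010831440420c0000,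
    0xa1052461c02010831440420c0001,
    0xa1051891c02010831440420c0002,
    0xa1091c6148003081144003081001,
    0xa1491071880400c21440400c2001,
    0xa1491871012020c0144083001000,
    0xa1462471012020c0144083001001,
    0xa1461c91012020c0144083001002,
    0xa1871091422030011440c0042002,
    0xa1891441c8081003144081003001,
    0xa1891c41422030011440c0042000,
    0xa1872441422030011440c0042001,
    0xa1c4245183200042144001083001,
    0xa1c62451080c20401440c2040002,
    0xa1c91851080c20401440c2040001,
    0xa2471851080c20401440c2040000]
   (by decide +kernel)

end Pool.Agent.T6.H92.LC.S4T00
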