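import Pool.Agent.T6.H92.LC.FastCert

/-! # Certificates (generated) -/

namespace Pool.Agent.T6.H92.LC.S4T01

universe u


theorem g0 : Good.{u} (mk 4 6 11 0x2144401514343050424200004040c0c20204040) :=
  leafC_good 1 1 2 0x1c828414104124a0c2180001 (by decide +kernel)

theorem g1 : Good.{u} (mk 4 6 11 0x21444009085450d0c14100004040c0c20204040) :=
  leafC_good 1 1 2 0x144287081041248283180001 (by decide +kernel)

theorem g2 : Good.{u} (mk 4 6 11 0x2144400d0c141151424200004040c0c20204040) :=
  leafC_good 1 1 2 0x1ca109081041146283200001 (by decide +kernel)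

theorem g3 : Good.{u} (mk 4 6 11 0x21444015142420d0c14100004040c0c20204040) :=
  leafC_good 1 1 2 0x14928308104110a207180001 (by decide +kernel)

theorem gbase : Good.{u} (mk 4 4 8 0x40090834305040000c0c20204040) :=
  baseC_good
   ((gc g0 (gc g1 (gc g2 (gc g3 (gn 4))))))
   [0xa1091461c02010831440420c0000,
    0xa0c02010891441c6105040083041,
    0xa1051891c02010831440420c0002,
    0xa0480030872441461050010c2041,
    0xa1c42451880400c21440400c2001,
    0xa1491871012020c0144083001003,
    0xa1462471012020c0144083001001,
    0xa1c91051880400c21440400c2003,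
    0xa1852441c22030011440c0042002,
    0xa0422030052461c41050c2001041,
    0xa2461441c22030011440c0042000,
    0xa0c80810091c6144105083040041,
    0xa149107183200042144001083001,
    0xa245107183200042144001083003,
    0xa1c91851080c20401440c2040001,
    0xa2471851080c20401440c2040003]
   (by decide +kernel)

end Pool.Agent.T6.H92.LC.S4T01
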