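import Pool.Agent.T6.H92.LC.FastCert

/-! # Certificates (generated) -/

namespace Pool.Agent.T6.H92.LC.S5T02

universe u


theorem g0 : Good.{u} (mk 5 7 13 0x21854019184440504343090800014144040c0c20204040) :=
  leafC_good 1 1 2 0x18b30424808204530a0c7040001 (by decide +kernel)

theorem g1 : Good.{u} (mk 5 7 13 0x21854009084441918343050400014144040c0c20204040) :=
  leafC_good 1 1 2 0x1853090c204104b2843081c0001 (by decide +kernel)

theorem g2 : Good.{u} (mk 5 7 13 0x21854011101410d0c646090800014144040c0c20204040) :=
  leafC_good 1 1 2 0x28320c14604104b10c1c2240001 (by decide +kernel)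

theorem g3 : Good.{u} (mk 5 7 13 0x2185400d0c6460908444050400014144040c0c20204040) :=
  leafC_good 1 1 2 0x18530a0c804104b0893041c0001 (by decide +kernel)

theorem g4 : Good.{u} (mk 5 7 13 0x2185400d0c6461110141090800014144040c0c20204040) :=
  leafC_good 1 1 2 0x20430a2c60410453090c21c0001 (by decide +kernel)

theorem g5 : Good.{u} (mk 5 7 13 0x21854019182421110343050400014144040c0c20204040) :=
  leafC_good 1 1 2 0x18b3040c204104530a2481c0001 (by decide +kernel)

theorem g6 : Good.{u} (mk 5 7 13 0x2185400d0c2421918444050400014144040c0c20204040) :=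
  leafC_good 1 1 2 0x1853080c204104b2893041c0001 (by decide +kernel)

theorem g7 : Good.{u} (mk 5 7 13 0x2185400d0c2421110646050400014144040c0c20204040) :=
  leafC_good 1 1 2 0x1853080c204104b28910c1c0001 (by decide +kernel)

theorem g8 : Good.{u} (mk 5 7 13 0x21854009084440d0c646050400014144040c0c20204040) :=
  leafC_good 1 1 2 0x1853080ca04104b08910c1c0001 (by decide +kernel)

theorem gbase : Good.{u} (mk 5 5 10 0x4009084440d0c14100004040c0c20204040) :=
  baseC_good
   ((gc g0 (gc g1 (gc g2 (gc g3 (gc g4 (gc g5 (gc g6 (gc g7 (gc g8 (gn 5)))))))))))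
   [0x30b14920718a0040c2046140103081000,
    0x30204a0040cb1852481c5181002103041,
    0x3052482c718a0040c2046140103081002,
    0x30400a0420c82c91461c51820010c4043,
    0x3012801030892c5187205180043102044,
    0x30914b18720a0401030861410040c2004,
    0x3012820c40062c7209145183102001045,
    0x3061cb2091412820c40061420c4001003,
    0x3061c82c91412820c40061420c4001006,
    0x3061c824b1412820c40061420c4001007,
    0x3062c52481ca0810040c6142040103003,
    0x30a0810040cb1852481c5181002103045,
    0x3082c7185242283100046143100042004,
    0x3061492c81ca0810040c6142040103007,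
    0x30614b2481ca0810040c6142040103006,
    0x30720914b183284001086144001083002,
    0x3010832840062c7209145183102001041,
    0x3072c8245183284001086144001083000,
    0x3020ca10004b2071852451840c1002044,
    0x30428308100b2481c6145182103040043,
    0x3082452c61c42800420c61400420c4001,
    0x3092072c614a1030810061440c2040008,
    0x30920b1c614a1030810061440c2040001,
    0x3082c91461c42800420c61400420c4005,
    0x30b2481c614a1030810061440c2040005]
   (by decide +kernel)

end Pool.Agent.T6.H92.LC.S5T02
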