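import Pool.Agent.T6.H92.LC.FastCert

/-! # Certificates (generated) -/

namespace Pool.Agent.T6.H92.LC.S5T03

universe u


theorem g0 : Good.{u} (mk 5 7 13 0x21854019183430504444090800014144040c0c20204040) :=
  leafC_good 1 1 2 0x20328c14604104b3041c2240001 (by decide +kernel)

theorem g1 : Good.{u} (mk 5 7 13 0x2185400d0c6460504444090800014144040c0c20204040) :=
  leafC_good 1 1 2 0x20328c14604104b08710c240001 (by decide +kernel)

theorem gbase : Good.{u} (mk 5 5 10 0x400d0c141111024200004040c0c20204040) :=
  baseC_good
   ((gc g0 (gc g1 (gn 5))))
   [0x3052c61c8240281083106141083100000,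
    0x30518b1c8240281083106141083100001,
    0x30b1c614920a0040c2046140103081000,
    0x30a0040c20482c91461c5183002101040,
    0x30028108310b2481c6145183044080040,
    0x30b14920718a0401030861410040c2000,
    0x30a0401030862c7209145184043002040,
    0x3012820c400b1c61492051840800c1040,
    0x3082c91461c12820c40061420c4001000,
    0x30824b1461c12820c40061420c4001001,
    0x30228310004b1492071851800c1102040,
    0x3062c7209142283100046143100042000,
    0x3061cb209142283100046143100042001,
    0x30b20718524a0810040c6142040103000,
    0x30a0810040c92c5187205180084043040,
    0x30914b187203284001086144001083001,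
    0x30b1852481ca0c2040106143081004000,
    0x30a0c20401072c82451851810c0084040,
    0x30328400108b207185245181102003040,
    0x3092c5187203284001086144001083000,
    0x30a1030810052c61c82451821010c0040,
    0x3042800420cb1852481c5182003044040,
    0x3072c82451842800420c61400420c4000,
    0x3092c81c614a1030810061440c2040001,
    0x30b2481c614a1030810061440c2040000]
   (by decide +kernel)

end Pool.Agent.T6.H92.LC.S5T03
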