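import Pool.Agent.T6.H92.LC.FastCert

/-! # Certificates (generated) -/

namespace Pool.Agent.T6.H92.LC.S6T09

universe u


theorem g0 : Good.{u} (mk 6 8 15 0x21c6401d1c34315141411110242000060614144040c0c20204040) :=
  leafC_good 1 1 2 0x2840cc3861c104134e14b088240001 (by decide +kernel)

theorem g1 : Good.{u} (mk 6 8 15 0x21c6400d0c54505047471110242000060614144040c0c20204040) :=
  leafC_good 1 1 2 0x2c424e18d0810411c80cc14e280001 (by decide +kernel)

theorem g2 : Good.{u} (mk 6 8 15 0x21c64011102421d1c5450504343000060614144040c0c20204040) :=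
  leafC_good 2 2 4 0x20734414e2c104124a3863430810411c330b38524000118e284302200001 (by decide +kernel)

theorem g3 : Good.{u} (mk 6 8 15 0x21c6400d0c74715141411110242000060614144040c0c20204040) :=
  leafC_good 1 1 2 0x2442ce18d0810411c80cc385280001 (by decide +kernel)

theorem g4 : Good.{u} (mk 6 8 15 0x21c64011101410d0c7471514242000060614144040c0c20204040) :=
  leafC_good 1 1 2 0x2ca38510d1c104118e248083300001 (by decide +kernel)

theorem g5 : Good.{u} (mk 6 8 15 0x21c64011101411d1c3431514242000060614144040c0c20204040) :=
  leafC_good 1 1 2 0x2ce18d1090810411c814e283300001 (by decide +kernel)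

theorem gbase : Good.{u} (mk 6 6 12 0x400d0c5450504444090800014144040c0c20204040) :=
  baseC_good
   ((gc g0 (gc g1 (gc g2 (gc g3 (gc g4 (gc g5 (gn 6))))))))
   [0xe00c0420c414634720928b1870840450c0040,
    0xe0c204c00510d1c62ca2481870800c5044041,
    0xe18720d24a2c03010831051c60420c4140002,
    0xe3001440c204934a2c61c8187143002101040,
    0xe0c414030108d28920718b187141102003041,
    0xe24a2cd18720c0051030811c6005103081002,
    0xe0013020c414634720928b1870840450c0043,
    0xe20d1c62ca2413020c41401c6083105001003,
    0xe3481c62ca2413020c41401c6083105001000,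
    0xe18b28d2481cc0401440c21c60401440c2004,
    0xe18b34a2481cc0401440c21c60401440c2005,
    0xe20718d2ca2413020c41401c6083105001001,
    0xe2c634720928c0810051031c6081005103003,
    0xe0cc08100510d1c62ca2481870800c5044043,
    0xe2c61c834928c0810051031c6081005103001,
    0xe1c824d28b1823031050011c60c4140042005,
    0xe1c824a34b1823031050011c60c4140042004,
    0xe2cd18720928c0810051031c6081005103000,
    0xe00108330414634720928b1870840450c0041,
    0xe30308100510d1c62ca2481870800c5044040,
    0xe2893481c62c33041400421c6105001083002,
    0xe00510c0c204934a2c61c8187143002101041,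
    0xe0cc10500108d28920718b187141102003040,
    0xe1c634b28920c0c20401441c60c2040144002,
    0xe28b18d1c824c1030810051c6103081005005,
    0xe28b18734824c1030810051c6103081005004,
    0xe20d24a2c61c43050010831c61400420c4000,
    0xe20934a2c61c43050010831c61400420c4003,
    0xe0c430500108d28920718b187141102003043,
    0xe20928b3461c43050010831c61400420c4001,
    0xe2481cd18b2853000420c41c6001083105004,
    0xe24834718b2853000420c41c6001083105005,
    0xe2ca24d20718c1440c20401c61440c2040001,
    0xe00c1440c204934a2c61c8187143002101043,
    0xe2cd28920718c1440c20401c61440c2040003,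
    0xe34b28920718c1440c20401c61440c2040000]
   (by decide +kernel)

end Pool.Agent.T6.H92.LC.S6T09
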