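import Pool.Agent.T6.H92.LC.FastCert

/-! # Certificates (generated) -/

namespace Pool.Agent.T6.H92.LC.S7T26

universe u


theorem g0 : Good.{u} (mk 7 9 17 0x22074021205450d0c141191844409080001c1c60614144040c0c20204040) :=
  leafC_good 1 1 2 0x20740e10a2cc08204f40614d0c9040001 (by decide +kernel)

theorem g1 : Good.{u} (mk 7 9 17 0x22074015148480d0c141191844409080001c1c60614144040c0c20204040) :=
  leafC_good 1 1 2 0x2c51033501c804104f39018a242300001 (by decide +kernel)

theorem g2 : Good.{u} (mk 7 9 17 0x22074015143430504646212044409080001c1c60614144040c0c20204040) :=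
  leafC_good 1 1 2 0x30b4073c40c204104824a40614e340001 (by decide +kernel)

theorem g3 : Good.{u} (mk 7 9 17 0x22074015143430504646111084809080001c1c60614144040c0c20204040) :=
  leafC_good 1 1 2 0x3053832901c804104f10b190242340001 (by decide +kernel)

theorem gbase : Good.{u} (mk 7 7 14 0x40151434305046461110242000060614144040c0c20204040) :=
  baseC_good
   ((gc g0 (gc g1 (gc g2 (gc g3 (gn 7))))))
   [0x4073c824a2cc3403810831051881c1083105180000,
    0x40720f24a2cc3403810831051881c1083105180001,
    0x40a3c920734c2ce0061440c20481c0185103081001,
    0x40f28920734c2ce0061440c20481c0185103081000,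
    0x40720928b3cc3403810831051881c1083105180002,
    0x40720928b30f3403810831051881c1083105180003,
    0x40a2481cf34c2ce0061440c20481c0185103081002,
    0x40f1cd30b28920e0401851030881c10061440c2000,
    0x40b30d1c83c92813820c41460081c20c4146001002,
    0x40b30d1c824f2813820c41460081c20c4146001003,
    0x40734c2cf28920e0401851030881c10061440c2002,
    0x40b3cc3472092813820c41460081c20c4146001000,
    0x40b30f3472092813820c41460081c20c4146001001,
    0x4073cd30b28920e0401851030881c10061440c2001,
    0x40b28920f1cd30e0810061440c81c2040185103002,
    0x4083c928b30d1c23831051800481c3105180042000,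
    0x40824f28b30d1c23831051800481c3105180042001,
    0x40b3ca2481cd30e0810061440c81c2040185103001,
    0x40f2ca2481cd30e0810061440c81c2040185103000,
    0x40824a2cc3cd1c23831051800481c3105180042002,
    0x40824a2cc34f1c23831051800481c3105180042003,
    0x4083c734c2ca24e0c20401851081c3081006144001,
    0x40f20734c2ca24e0c20401851081c3081006144000,
    0x40c3472093ca2c33841460010881c4146001083002,
    0x40c34720928f2c33841460010881c4146001083003,
    0x4081cd30f2ca24e0c20401851081c3081006144002,
    0x40c3cd1c824a2c33841460010881c4146001083000,
    0x40c34f1c824a2c33841460010881c4146001083001,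
    0x40928b30d1cf2043851800420c81c51800420c4003,
    0x40c2ca24f20734e1030810061481c40c2040185002,
    0x4093ca2cc3472043851800420c81c51800420c4000,
    0x40928f2cc3472043851800420c81c51800420c4001,
    0x40c3cb28920734e1030810061481c40c2040185001,
    0x40f30b28920734e1030810061481c40c2040185000,
    0x40928b30d3c72043851800420c81c51800420c4002,
    0x40d1cf20928b3053860010831081c6001083105001,
    0x4093c81cd30b28e1440c20401881c5103081006001,
    0x40f2481cd30b28e1440c20401881c5103081006000,
    0x40d1c824a3cb3053860010831081c6001083105002,
    0x40d1c824a2cf3053860010831081c6001083105003,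
    0x40920734f30b28e1440c20401881c5103081006002,
    0x40d3c720928b3053860010831081c6001083105000,
    0x40a2cc3473c82463800420c41481c00420c4146002,
    0x40d30b2893c81ce1851030810081c61440c2040003,
    0x40d30b28f2481ce1851030810081c61440c2040002,
    0x40a3cb30d1c82463800420c41481c00420c4146000,
    0x40a2cf30d1c82463800420c41481c00420c4146001,
    0x40d3cc2ca2481ce1851030810081c61440c2040001,
    0x40f34c2ca2481ce1851030810081c61440c2040000]
   (by decide +kernel)

end Pool.Agent.T6.H92.LC.S7T26
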